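import Mathlib

/-!
# General hyperplane sections of a smooth form are smooth
-/

set_option autoImplicit false

namespace Pool.Agent.Helper17.LD

open MvPolynomial

variable {k : Type} [Field k] {σ : Type} [Fintype σ]

/-- The polynomial `F` and its partial derivatives satisfy an algebraic relation modulo `F`. -/
lemma exists_dual (F : MvPolynomial σ k) (hF : F ≠ 0) :
    ∃ G : MvPolynomial σ k, G ≠ 0 ∧
      ∀ y : σ → k, eval y F = 0 → eval (fun a => eval y (pderiv a F)) G = 0 := by
  classical
  let v : Option σ → MvPolynomial σ k := fun o => o.elim F fun a => pderiv a F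
  have h1 : ¬ AlgebraicIndependent k v := by
    intro h
    have h2 := h.lift_cardinalMk_le_trdeg
    rw [MvPolynomial.trdeg_of_isDomain] at h2
    simp only [Cardinal.lift_id, Cardinal.mk_fintype, Fintype.card_option] at h2
    have h3 : Fintype.card σ + 1 ≤ Fintype.card σ := by exact_mod_cast h2
    omega
  rw [algebraicIndependent_iff] at h1
  push Not at h1
  obtain ⟨Q, hQ, hQ0⟩ := h1
  let Q' := optionEquivLeft k σ Q
  have hQ' : Q' ≠ 0 := (EmbeddingLike.map_ne_zero_iff (f := optionEquivLeft k σ)).2 hQ0
  have e1 : ∀ P : MvPolynomial (Option σ) k, aeval v P =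
      (optionEquivLeft k σ P).eval₂ (aeval (fun a => pderiv a F) : MvPolynomial σ k →ₐ[k] _).toRingHom F := by
    intro P
    induction P using MvPolynomial.induction_on with
    | C a => simp [optionEquivLeft_C]
    | add p q hp hq => rw [map_add, map_add, Polynomial.eval₂_add, hp, hq]
    | mul_X p o hp =>
      rw [map_mul, map_mul, Polynomial.eval₂_mul, hp]
      congr 1
      cases o with
      | none => simp [v, optionEquivLeft_X_none]
      | some a => simp [v, optionEquivLeft_X_some]
  have e2 : Q'.eval₂ (aeval (fun a => pderiv a F) : MvPolynomial σ k →ₐ[k] _).toRingHom F = 0 := by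
    rw [← e1, hQ]
  let m := Q'.natTrailingDegree
  obtain ⟨R, hR⟩ : ∃ R : Polynomial (MvPolynomial σ k), Q' = Polynomial.X ^ m * R := by
    refine (Polynomial.X_pow_dvd_iff (n := m)).2 fun d hd => ?_
    exact Polynomial.coeff_eq_zero_of_lt_natTrailingDegree hd
  have hR0 : R.coeff 0 ≠ 0 := by
    have h3 : Q'.coeff m = R.coeff 0 := by
      rw [hR]
      have := Polynomial.coeff_X_pow_mul R m 0
      rwa [Nat.zero_add] at this
    rw [← h3]
    exact mt Polynomial.trailingCoeff_eq_zero.1 hQ'
  refine ⟨R.coeff 0, hR0, fun y hy => ?_⟩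
  have h4 : R.eval₂ (aeval (fun a => pderiv a F) : MvPolynomial σ k →ₐ[k] _).toRingHom F = 0 := by
    have h5 := e2
    rw [hR, Polynomial.eval₂_mul, Polynomial.eval₂_pow, Polynomial.eval₂_X] at h5
    exact (mul_eq_zero.1 h5).resolve_left (pow_ne_zero _ hF)
  have h6 : eval y (R.eval₂ (aeval (fun a => pderiv a F) : MvPolynomial σ k →ₐ[k] _).toRingHom F) = 0 := by
    rw [h4, map_zero]
  rw [← R.divX_mul_X_add, Polynomial.eval₂_add, Polynomial.eval₂_mul, Polynomial.eval₂_X,
    Polynomial.eval₂_C, map_add, map_mul, hy, mul_zero, zero_add] at h6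
  change eval y (aeval (fun a => pderiv a F) (R.coeff 0)) = 0 at h6
  have h7 : ∀ P : MvPolynomial σ k, eval y (aeval (fun a => pderiv a F) P) =
      eval (fun a => eval y (pderiv a F)) P := by
    intro P
    induction P using MvPolynomial.induction_on with
    | C a => simp
    | add p q hp hq => rw [map_add, map_add, map_add, hp, hq]
    | mul_X p o hp => rw [map_mul, map_mul, map_mul, hp]; simp
  rw [h7] at h6
  exact h6

lemma eval_smul {G : MvPolynomial σ k} {e : ℕ} (hG : G.IsHomogeneous e) (μ : k) (w : σ → k) :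
    eval (μ • w) G = μ ^ e * eval w G := by
  rw [eval_eq', eval_eq', Finset.mul_sum]
  refine Finset.sum_congr rfl fun m hm => ?_
  have h1 : ∑ i, m i = e := by
    rw [← hG (mem_support_iff.1 hm), Finsupp.weight_apply, Finsupp.sum_fintype _ _ (by simp)]
    simp
  simp only [Pi.smul_apply, smul_eq_mul, mul_pow]
  rw [Finset.prod_mul_distrib, Finset.prod_pow_eq_pow_sum, h1]
  ring

/-- The homogeneous form of the relation. -/
lemma exists_dual_hom [IsAlgClosed k] {d : ℕ} (hd : 2 ≤ d) (F : MvPolynomial σ k) (hF : F ≠ 0)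
    (hh : F.IsHomogeneous d) :
    ∃ (G : MvPolynomial σ k) (e : ℕ), G ≠ 0 ∧ G.IsHomogeneous e ∧
      ∀ y : σ → k, eval y F = 0 → eval (fun a => eval y (pderiv a F)) G = 0 := by
  classical
  obtain ⟨G, hG, h1⟩ := exists_dual F hF
  obtain ⟨e, he⟩ : ∃ e, homogeneousComponent e G ≠ 0 := by
    by_contra h
    push Not at h
    apply hG
    rw [← sum_homogeneousComponent G]
    exact Finset.sum_eq_zero fun i _ => h i
  refine ⟨_, e, he, homogeneousComponent_isHomogeneous e G, fun y hy => ?_⟩
  set w : σ → k := fun a => eval y (pderiv a F) with hw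
  -- the values at all multiples of `w`
  have h2 : ∀ μ : k, eval (μ • w) G = 0 := by
    intro μ
    obtain ⟨l, hl⟩ := IsAlgClosed.exists_pow_nat_eq μ (n := d - 1) (by omega)
    have h3 : eval (l • y) F = 0 := by rw [eval_smul hh, hy, mul_zero]
    have h4 : (fun a => eval (l • y) (pderiv a F)) = μ • w := by
      funext a
      rw [eval_smul hh.pderiv, hl]
      rfl
    rw [← h4]
    exact h1 _ h3
  -- a polynomial in one variable
  let p : Polynomial k := ∑ i ∈ Finset.range (G.totalDegree + 1),
    Polynomial.C (eval w (homogeneousComponent i G)) * Polynomial.X ^ i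
  have h5 : p = 0 := by
    refine Polynomial.funext fun μ => ?_
    rw [Polynomial.eval_zero, ← h2 μ]
    conv_rhs => rw [← sum_homogeneousComponent G]
    rw [map_sum, Polynomial.eval_finsetSum]
    refine Finset.sum_congr rfl fun i _ => ?_
    rw [eval_smul (homogeneousComponent_isHomogeneous i G), Polynomial.eval_mul,
      Polynomial.eval_C, Polynomial.eval_pow, Polynomial.eval_X, mul_comm]
  have h6 : e ∈ Finset.range (G.totalDegree + 1) := by
    rw [Finset.mem_range]
    by_contra h
    exact he (homogeneousComponent_eq_zero _ _ (by omega))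
  have h7 : p.coeff e = eval w (homogeneousComponent e G) := by
    simp only [p, Polynomial.finsetSum_coeff, Polynomial.coeff_C_mul, Polynomial.coeff_X_pow]
    rw [Finset.sum_eq_single e]
    · simp
    · intro i _ hi
      rw [if_neg (Ne.symm hi), mul_zero]
    · intro h
      exact absurd h6 h
  rw [← h7, h5, Polynomial.coeff_zero]

/-- **General hyperplane sections are smooth.** For a smooth form `F` there is a nonzero polynomial
`G` such that `F` has no nonzero critical point on the hyperplane `h · y = 0` if `G(h) ≠ 0`. -/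
lemma exists_bertini [IsAlgClosed k] [CharZero k] {d : ℕ} (hd : 2 ≤ d) (F : MvPolynomial σ k)
    (hh : F.IsHomogeneous d)
    (hs : ∀ z : σ → k, (∀ a, eval z (pderiv a F) = 0) → z = 0) :
    ∃ G : MvPolynomial σ k, G ≠ 0 ∧ ∀ h : σ → k, eval h G ≠ 0 → ∀ y : σ → k, y ≠ 0 →
      ∑ a, h a * y a = 0 → ∀ c : k, ∃ a, eval y (pderiv a F) ≠ c * h a := by
  classical
  by_cases hσ : IsEmpty σ
  · exact ⟨1, one_ne_zero, fun h _ y hy => absurd (Subsingleton.elim y 0) hy⟩
  rw [not_isEmpty_iff] at hσ
  have hF : F ≠ 0 := by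
    rintro rfl
    have h1 : (fun _ => 1 : σ → k) = 0 := hs _ fun a => by simp
    obtain ⟨a⟩ := hσ
    exact one_ne_zero (congrFun h1 a)
  obtain ⟨G, e, hG, hGe, h1⟩ := exists_dual_hom hd F hF hh
  refine ⟨G, hG, fun h hh' y hy h2 c => ?_⟩
  by_contra h3
  push Not at h3
  have h4 : eval y F = 0 := by
    have h5 := congrArg (eval y) hh.sum_X_mul_pderiv
    rw [map_sum] at h5
    simp only [map_mul, eval_X, h3] at h5
    have h6 : ∑ a, y a * (c * h a) = 0 := by
      rw [← mul_zero c, ← h2, Finset.mul_sum]
      exact Finset.sum_congr rfl fun a _ => by ring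
    rw [h6, map_nsmul, nsmul_eq_mul] at h5
    have hd0 : (d : k) ≠ 0 := Nat.cast_ne_zero.2 (by omega)
    exact (mul_eq_zero.1 h5.symm).resolve_left hd0
  have h7 : c ≠ 0 := by
    rintro rfl
    exact hy (hs y fun a => by rw [h3, zero_mul])
  have h8 := h1 y h4
  have h9 : (fun a => eval y (pderiv a F)) = c • h := funext fun a => h3 a
  rw [h9, eval_smul hGe] at h8
  exact hh' ((mul_eq_zero.1 h8).resolve_left (pow_ne_zero _ h7))

end Pool.Agent.Helper17.LD
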