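import Pool.Agent.Helper17.LD.Bert

/-!
# General coordinates for a smooth form
-/

set_option autoImplicit false

namespace Pool.Agent.Helper17.LD

open MvPolynomial

variable {k : Type} [Field k]

section chain

variable {σ τ : Type} [Fintype τ]

lemma pderiv_aeval (f : τ → MvPolynomial σ k) (b : σ) (P : MvPolynomial τ k) :
    pderiv b (aeval f P) = ∑ a, aeval f (pderiv a P) * pderiv b (f a) := by
  classical
  induction P using MvPolynomial.induction_on with
  | C a => simp
  | add p q hp hq =>
    rw [map_add, map_add, hp, hq, ← Finset.sum_add_distrib]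
    exact Finset.sum_congr rfl fun a _ => by rw [map_add, map_add, add_mul]
  | mul_X p i hp =>
    rw [map_mul, aeval_X, Derivation.leibniz, hp]
    simp only [Derivation.leibniz, pderiv_X, smul_eq_mul, map_add, map_mul, aeval_X, add_mul,
      Finset.sum_add_distrib]
    congr 1
    · rw [Finset.sum_eq_single i]
      · simp
      · intro a _ ha
        rw [Pi.single_eq_of_ne (Ne.symm ha)]
        simp
      · simp
    · rw [Finset.mul_sum]
      exact Finset.sum_congr rfl fun a _ => by ring

omit [Fintype τ] in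
lemma eval_aeval (f : τ → MvPolynomial σ k) (y : σ → k) (P : MvPolynomial τ k) :
    eval y (aeval f P) = eval (fun a => eval y (f a)) P := by
  induction P using MvPolynomial.induction_on with
  | C a => simp
  | add p q hp hq => rw [map_add, map_add, map_add, hp, hq]
  | mul_X p i hp => rw [map_mul, map_mul, map_mul, hp]; simp

end chain

variable {N : ℕ}

/-- For every `y ≠ 0` some partial derivative of `F` at `y` is not zero, for a coordinate `a` which
is at least `j` or with `y a ≠ 0`. -/
def PJ (F : MvPolynomial (Fin N) k) (j : ℕ) : Prop :=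
  ∀ y : Fin N → k, y ≠ 0 → ∃ a : Fin N, (a.val < j → y a ≠ 0) ∧ eval y (pderiv a F) ≠ 0

section restrict

variable (S : Finset (Fin N))

/-- the restriction to a coordinate subspace -/
noncomputable def rs (a : Fin N) : MvPolynomial {a // a ∉ S} k := by
  classical exact if h : a ∈ S then 0 else X ⟨a, h⟩

/-- extension by zero -/
noncomputable def ex (z : {a // a ∉ S} → k) (a : Fin N) : k := by
  classical exact if h : a ∈ S then 0 else z ⟨a, h⟩

lemma eval_rs (z : {a // a ∉ S} → k) (P : MvPolynomial (Fin N) k) :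
    eval z (aeval (rs (k := k) S) P) = eval (ex S z) P := by
  rw [eval_aeval]
  congr 2
  funext a
  unfold rs ex
  split_ifs <;> simp

lemma pderiv_rs (b : {a // a ∉ S}) (P : MvPolynomial (Fin N) k) :
    pderiv b (aeval (rs (k := k) S) P) = aeval (rs (k := k) S) (pderiv b.1 P) := by
  classical
  rw [pderiv_aeval, Finset.sum_eq_single b.1]
  · have h : rs (k := k) S b.1 = X b := by
      unfold rs
      rw [dif_neg b.2]
    rw [h, pderiv_X_self, mul_one]
  · intro a _ ha
    unfold rs
    split_ifs with h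
    · simp
    · rw [pderiv_X_of_ne, mul_zero]
      intro h'
      exact ha (by rw [← h'])
  · simp

lemma rs_hom {P : MvPolynomial (Fin N) k} {d : ℕ} (hP : P.IsHomogeneous d) :
    (aeval (rs (k := k) S) P).IsHomogeneous d := by
  have := hP.aeval (rs (k := k) S) (n := 1) (fun i => by
    unfold rs
    split_ifs
    · exact isHomogeneous_zero _ _ _
    · exact isHomogeneous_X _ _)
  rwa [one_mul] at this

/-- The bad hyperplanes for the coordinate subspace. -/
lemma exists_good [IsAlgClosed k] [CharZero k] {d j : ℕ} (hd : 2 ≤ d)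
    {F : MvPolynomial (Fin N) k} (hh : F.IsHomogeneous d) (hP : PJ F j)
    (hS : ∀ a ∈ S, a.val < j) :
    ∃ G : MvPolynomial (Fin N) k, G ≠ 0 ∧ ∀ h : Fin N → k, eval h G ≠ 0 → ∀ y : Fin N → k,
      y ≠ 0 → (∀ a ∈ S, y a = 0) → ∑ a, h a * y a = 0 → ∀ c : k, ∃ a, a ∉ S ∧
        eval y (pderiv a F) ≠ c * h a := by
  classical
  obtain ⟨G, hG, h1⟩ := exists_bertini hd (aeval (rs (k := k) S) F) (rs_hom S hh) (by
    intro z hz
    by_contra hz0
    have h2 : ex S z ≠ 0 := by
      intro h
      apply hz0
      funext a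
      have h3 := congrFun h a.1
      unfold ex at h3
      rw [dif_neg a.2] at h3
      exact h3
    obtain ⟨a, ha, ha'⟩ := hP _ h2
    have h4 : a ∉ S := by
      intro h
      refine ha (hS a h) ?_
      unfold ex
      rw [dif_pos h]
    apply ha'
    have h5 := hz ⟨a, h4⟩
    rwa [pderiv_rs, eval_rs] at h5)
  refine ⟨rename Subtype.val G, ?_, fun h hh' y hy hyS hy' c => ?_⟩
  · intro h
    exact hG (rename_injective _ Subtype.val_injective (by rw [h, map_zero]))
  · rw [eval_rename] at hh'
    let z : {a // a ∉ S} → k := fun a => y a.1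
    have hz : ex S z = y := by
      funext a
      unfold ex
      split_ifs with h
      · exact (hyS a h).symm
      · rfl
    have hz0 : z ≠ 0 := by
      intro h
      apply hy
      rw [← hz, h]
      funext a
      unfold ex
      split_ifs <;> rfl
    have hsum : ∑ a, (h ∘ Subtype.val) a * z a = 0 := by
      have e1 : ∑ a ∈ Finset.univ.filter (· ∉ S), h a * y a =
          ∑ a : {a // a ∉ S}, h a.1 * y a.1 := Finset.sum_subtype _ (by simp) _
      have e2 : ∑ a ∈ Finset.univ.filter (· ∉ S), h a * y a = ∑ a, h a * y a :=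
        Finset.sum_filter_of_ne fun a _ hne hS' => hne (by rw [hyS a hS', mul_zero])
      rw [← hy', ← e2, e1]
      rfl
    obtain ⟨a, ha⟩ := h1 _ hh' z hz0 hsum c
    refine ⟨a.1, a.2, ?_⟩
    rw [pderiv_rs, eval_rs, hz] at ha
    exact ha

end restrict

section step

variable (j : Fin N) (h : Fin N → k)

/-- the change of coordinates: the new coordinate number `j` is the linear form `h` -/
noncomputable def cf (a : Fin N) : MvPolynomial (Fin N) k :=
  if a = j then C (h j)⁻¹ * (X j - ∑ b ∈ Finset.univ.erase j, C (h b) * X b) else X a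

/-- the inverse change of coordinates -/
noncomputable def cb (a : Fin N) : MvPolynomial (Fin N) k :=
  if a = j then ∑ b, C (h b) * X b else X a

variable {j h}

/-- The change of coordinates. -/
noncomputable def cEquiv (hj : h j ≠ 0) : MvPolynomial (Fin N) k ≃ₐ[k] MvPolynomial (Fin N) k :=
  AlgEquiv.ofAlgHom (aeval (cf j h)) (aeval (cb j h))
    (by
      refine algHom_ext fun a => ?_
      rw [AlgHom.comp_apply, aeval_X, AlgHom.id_apply]
      by_cases ha : a = j
      · subst ha
        rw [cb, if_pos rfl, map_sum, ← Finset.add_sum_erase _ _ (Finset.mem_univ a)]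
        have e1 : ∑ x ∈ Finset.univ.erase a, aeval (cf a h) (C (h x) * X x) =
            ∑ b ∈ Finset.univ.erase a, C (h b) * X b := by
          refine Finset.sum_congr rfl fun x hx => ?_
          rw [map_mul, aeval_X, cf, if_neg (Finset.ne_of_mem_erase hx), ← algebraMap_eq,
            AlgHom.commutes]
        rw [e1, map_mul, aeval_X, cf, if_pos rfl, ← algebraMap_eq, AlgHom.commutes, ← mul_assoc,
          ← map_mul, mul_inv_cancel₀ hj, map_one, one_mul, sub_add_cancel]
      · rw [cb, if_neg ha, aeval_X, cf, if_neg ha])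
    (by
      refine algHom_ext fun a => ?_
      rw [AlgHom.comp_apply, aeval_X, AlgHom.id_apply]
      by_cases ha : a = j
      · subst ha
        rw [cf, if_pos rfl, map_mul, map_sub, aeval_X, map_sum]
        have e1 : ∑ x ∈ Finset.univ.erase a, aeval (cb a h) (C (h x) * X x) =
            ∑ b ∈ Finset.univ.erase a, C (h b) * X b := by
          refine Finset.sum_congr rfl fun x hx => ?_
          rw [map_mul, aeval_X, cb, if_neg (Finset.ne_of_mem_erase hx), ← algebraMap_eq,
            AlgHom.commutes]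
        rw [e1, cb, if_pos rfl, ← Finset.add_sum_erase _ _ (Finset.mem_univ a),
          add_sub_cancel_right, ← algebraMap_eq, AlgHom.commutes, ← mul_assoc,
          ← map_mul, inv_mul_cancel₀ hj, map_one, one_mul]
      · rw [cf, if_neg ha, aeval_X, cb, if_neg ha])

lemma cEquiv_apply (hj : h j ≠ 0) (P : MvPolynomial (Fin N) k) :
    cEquiv hj P = aeval (cf j h) P := rfl

lemma cf_hom (a : Fin N) : (cf j h a).IsHomogeneous 1 := by
  unfold cf
  split_ifs with ha
  · refine IsHomogeneous.C_mul ?_ _
    refine (isHomogeneous_X _ _).sub (IsHomogeneous.sum _ _ _ fun b _ => ?_)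
    exact IsHomogeneous.C_mul (isHomogeneous_X _ _) _
  · exact isHomogeneous_X _ _

lemma cEquiv_hom (hj : h j ≠ 0) {P : MvPolynomial (Fin N) k} {d : ℕ} (hP : P.IsHomogeneous d) :
    (cEquiv hj P).IsHomogeneous d := by
  rw [cEquiv_apply]
  have := hP.aeval (cf j h) cf_hom
  rwa [one_mul] at this

lemma eval_pderiv_cf (F : MvPolynomial (Fin N) k) (y' : Fin N → k) (b : Fin N) :
    eval y' (pderiv b (aeval (cf j h) F)) =
      if b = j then (h j)⁻¹ * eval (fun a => eval y' (cf j h a)) (pderiv j F)
      else eval (fun a => eval y' (cf j h a)) (pderiv b F) -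
        (h j)⁻¹ * h b * eval (fun a => eval y' (cf j h a)) (pderiv j F) := by
  rw [pderiv_aeval, map_sum]
  simp only [map_mul, eval_aeval]
  have e1 : ∀ a, a ≠ j → eval y' (pderiv b (cf j h a)) = if a = b then 1 else 0 := by
    intro a ha
    rw [cf, if_neg ha, pderiv_X]
    split_ifs with h1
    · subst h1
      simp
    · rw [Pi.single_eq_of_ne h1, map_zero]
  have e2 : eval y' (pderiv b (cf j h j)) = if b = j then (h j)⁻¹ else -((h j)⁻¹ * h b) := by
    rw [cf, if_pos rfl, pderiv_C_mul, map_sub, map_sum, map_mul, eval_C, map_sub, map_sum]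
    split_ifs with h1
    · subst h1
      rw [pderiv_X_self, map_one, Finset.sum_eq_zero, sub_zero, mul_one]
      intro x hx
      rw [pderiv_C_mul, pderiv_X_of_ne (Finset.ne_of_mem_erase hx), mul_zero, map_zero]
    · rw [pderiv_X_of_ne (Ne.symm h1), map_zero, Finset.sum_eq_single b]
      · rw [pderiv_C_mul, pderiv_X_self, mul_one, eval_C]
        ring
      · intro x _ hx
        rw [pderiv_C_mul, pderiv_X_of_ne hx, mul_zero, map_zero]
      · intro h2
        exact absurd (Finset.mem_erase.2 ⟨h1, Finset.mem_univ b⟩) h2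
  rw [← Finset.add_sum_erase _ _ (Finset.mem_univ j), e2]
  have e3 : ∀ x ∈ Finset.univ.erase j, eval (fun a => eval y' (cf j h a)) (pderiv x F) *
      eval y' (pderiv b (cf j h x)) =
      if x = b then eval (fun a => eval y' (cf j h a)) (pderiv x F) else 0 := by
    intro x hx
    rw [e1 x (Finset.ne_of_mem_erase hx)]
    split_ifs <;> simp
  rw [Finset.sum_congr rfl e3]
  split_ifs with h1
  · subst h1
    rw [Finset.sum_eq_zero]
    · ring
    · intro x hx
      rw [if_neg (Finset.ne_of_mem_erase hx)]
  · rw [Finset.sum_ite_eq' _ b, if_pos (Finset.mem_erase.2 ⟨h1, Finset.mem_univ b⟩)]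
    ring

/-- One more general hyperplane. -/
lemma pj_step (hj : h j ≠ 0) {F : MvPolynomial (Fin N) k} (hP : PJ F j)
    (hh : ∀ S : Finset (Fin N), (∀ a ∈ S, a.val < j.val) → ∀ y : Fin N → k, y ≠ 0 →
      (∀ a ∈ S, y a = 0) → ∑ a, h a * y a = 0 → ∀ c : k, ∃ a, a ∉ S ∧
        eval y (pderiv a F) ≠ c * h a) : PJ (cEquiv hj F) (j + 1) := by
  classical
  intro y' hy'
  set y : Fin N → k := fun a => eval y' (cf j h a) with hy
  have h1 : ∀ a, a ≠ j → y a = y' a := fun a ha => by
    rw [hy]
    simp [cf, if_neg ha]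
  have h2 : ∑ a, h a * y a = y' j := by
    rw [← Finset.add_sum_erase _ _ (Finset.mem_univ j)]
    have e1 : ∑ x ∈ Finset.univ.erase j, h x * y x = ∑ x ∈ Finset.univ.erase j, h x * y' x :=
      Finset.sum_congr rfl fun x hx => by rw [h1 x (Finset.ne_of_mem_erase hx)]
    rw [e1, hy]
    simp only [cf, if_true, map_mul, map_sub, map_sum, eval_C, eval_X]
    rw [← mul_assoc, mul_inv_cancel₀ hj]
    ring
  have h3 : y ≠ 0 := by
    intro h0
    apply hy'
    have h4 : y' j = 0 := by
      rw [← h2, h0]
      simp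
    funext a
    by_cases ha : a = j
    · rw [ha, h4]
      rfl
    · rw [← h1 a ha, h0]
  simp only [cEquiv_apply, eval_pderiv_cf]
  by_cases hj' : y' j = 0
  · -- `y` is on the hyperplane
    by_contra hcon
    push Not at hcon
    let S : Finset (Fin N) := Finset.univ.filter fun a => a.val < j.val ∧ y a = 0
    obtain ⟨a, ha, ha'⟩ := hh S (fun a ha => (Finset.mem_filter.1 ha).2.1) y h3
      (fun a ha => (Finset.mem_filter.1 ha).2.2) (by rw [h2, hj'])
      ((h j)⁻¹ * eval y (pderiv j F))
    apply ha'
    by_cases haj : a = j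
    · subst haj
      field_simp
    · have h5 := hcon a (fun hlt => by
        rw [← h1 a haj]
        intro h6
        have h7 : a.val < j.val := by
          have : a.val ≠ j.val := fun h => haj (Fin.ext h)
          omega
        exact ha (Finset.mem_filter.2 ⟨Finset.mem_univ _, h7, h6⟩))
      rw [if_neg haj, sub_eq_zero] at h5
      rw [h5]
      ring
  · obtain ⟨a, ha, ha'⟩ := hP y h3
    by_cases h5 : eval y (pderiv j F) = 0
    · have haj : a ≠ j := by
        rintro rfl
        exact ha' h5
      refine ⟨a, fun hlt => ?_, ?_⟩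
      · rw [← h1 a haj]
        have : a.val ≠ j.val := fun h => haj (Fin.ext h)
        exact ha (by omega)
      · rw [if_neg haj, h5, mul_zero, sub_zero]
        exact ha'
    · refine ⟨j, fun _ => hj', ?_⟩
      rw [if_pos rfl]
      exact mul_ne_zero (inv_ne_zero hj) h5

/-- The choice of a general hyperplane. -/
lemma exists_step [IsAlgClosed k] [CharZero k] {d : ℕ} (hd : 2 ≤ d) (j : Fin N)
    {F : MvPolynomial (Fin N) k} (hF : F.IsHomogeneous d) (hP : PJ F j) :
    ∃ φ : MvPolynomial (Fin N) k ≃ₐ[k] MvPolynomial (Fin N) k,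
      (φ F).IsHomogeneous d ∧ PJ (φ F) (j + 1) := by
  classical
  have h1 : ∀ S : Finset (Fin N), ∃ G : MvPolynomial (Fin N) k, G ≠ 0 ∧
      ((∀ a ∈ S, a.val < j.val) → ∀ h : Fin N → k, eval h G ≠ 0 → ∀ y : Fin N → k,
      y ≠ 0 → (∀ a ∈ S, y a = 0) → ∑ a, h a * y a = 0 → ∀ c : k, ∃ a, a ∉ S ∧
        eval y (pderiv a F) ≠ c * h a) := by
    intro S
    by_cases hS : ∀ a ∈ S, a.val < j.val
    · obtain ⟨G, hG, h2⟩ := exists_good S hd hF hP hS
      exact ⟨G, hG, fun _ => h2⟩
    · exact ⟨1, one_ne_zero, fun h => absurd h hS⟩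
  choose G hG h2 using h1
  let H : MvPolynomial (Fin N) k := X j * ∏ S, G S
  have hH : H ≠ 0 := mul_ne_zero (X_ne_zero j) (Finset.prod_ne_zero_iff.2 fun S _ => hG S)
  obtain ⟨h, hh⟩ : ∃ h : Fin N → k, eval h H ≠ 0 := by
    by_contra h3
    push Not at h3
    exact hH (MvPolynomial.funext fun h => by rw [h3, map_zero])
  rw [map_mul, map_prod, eval_X] at hh
  have hj : h j ≠ 0 := left_ne_zero_of_mul hh
  have h4 := Finset.prod_ne_zero_iff.1 (right_ne_zero_of_mul hh)
  exact ⟨cEquiv hj, cEquiv_hom hj hF, pj_step hj hP fun S hS =>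
    h2 S hS h (h4 S (Finset.mem_univ _))⟩

/-- **General coordinates.** In suitable linear coordinates the restrictions of a smooth form to all
coordinate subspaces are smooth. -/
theorem exists_coord [IsAlgClosed k] [CharZero k] {d : ℕ} (hd : 2 ≤ d)
    {F : MvPolynomial (Fin N) k} (hF : F.IsHomogeneous d) (hP : PJ F 0) :
    ∀ j, j ≤ N → ∃ φ : MvPolynomial (Fin N) k ≃ₐ[k] MvPolynomial (Fin N) k,
      (φ F).IsHomogeneous d ∧ PJ (φ F) j := by
  intro j
  induction j with
  | zero => exact fun _ => ⟨AlgEquiv.refl, hF, hP⟩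
  | succ j ih =>
    intro hj
    obtain ⟨φ, h1, h2⟩ := ih (by omega)
    obtain ⟨ψ, h3, h4⟩ := exists_step hd (⟨j, by omega⟩ : Fin N) h1 h2
    exact ⟨φ.trans ψ, h3, h4⟩

end step

end Pool.Agent.Helper17.LD
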