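import Pool.Agent.Helper17.LD.Coord
import Pool.Agent.Helper13HC.Step

/-!
# The coverings given by powers of the coordinates
-/

set_option autoImplicit false

namespace Pool.Agent.Helper17.LD

open MvPolynomial Pool.Agent.Helper13HC

variable {k : Type} [Field k] {N : ℕ}

/-- the `m`-th power of the coordinate `j`, the other coordinates are not changed -/
noncomputable def p1 (m : ℕ) (j a : Fin N) : MvPolynomial (Fin N) k :=
  if a = j then X j ^ m else X a

/-- The form `F(z_0^m, …, z_{N-1}^m)`. -/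
noncomputable def powForm (m : ℕ) (F : MvPolynomial (Fin N) k) : MvPolynomial (Fin N) k :=
  aeval (fun a => X a ^ m) F

/-- The first `j` coordinates are replaced by their powers. -/
noncomputable def ppow (m j : ℕ) (F : MvPolynomial (Fin N) k) : MvPolynomial (Fin N) k :=
  aeval (fun a : Fin N => if a.val < j then (X a : MvPolynomial (Fin N) k) ^ m else X a) F

lemma ppow_zero (m : ℕ) (F : MvPolynomial (Fin N) k) : ppow m 0 F = F := by
  simp [ppow]

lemma ppow_last (m : ℕ) (F : MvPolynomial (Fin N) k) : ppow m N F = powForm m F := by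
  rw [ppow, powForm]
  congr 2
  funext a
  rw [if_pos a.2]

lemma ppow_succ (m : ℕ) (j : Fin N) (F : MvPolynomial (Fin N) k) :
    ppow m (j + 1) F = aeval (p1 m j) (ppow m j F) := by
  rw [ppow, ppow, ← AlgHom.comp_apply]
  congr 1
  refine algHom_ext fun a => ?_
  rw [AlgHom.comp_apply, aeval_X, aeval_X]
  by_cases h1 : a = j
  · subst h1
    rw [if_pos (by omega), if_neg (by omega), aeval_X, p1, if_pos rfl]
  · have h2 : a.val ≠ j.val := fun h => h1 (Fin.ext h)
    by_cases h3 : a.val < j.val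
    · rw [if_pos (by omega), if_pos h3, map_pow, aeval_X, p1, if_neg h1]
    · rw [if_neg (by omega), if_neg h3, aeval_X, p1, if_neg h1]

/-- The hypersurface `ψ(G) = 0`, where `ψ` replaces the coordinate `x_j` by its `m`-th power, is the
covering of `G = 0` obtained by adjoining an `m`-th root of `x_j`. -/
noncomputable def coverIso (m : ℕ) (j : Fin N) (G : MvPolynomial (Fin N) k) :
    AdjoinRoot (Polynomial.X ^ m - Polynomial.C (Ideal.Quotient.mk (Ideal.span {G}) (X j))) ≃ₐ[k]
      (MvPolynomial (Fin N) k ⧸ Ideal.span {aeval (p1 m j) G}) := by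
  let A := MvPolynomial (Fin N) k ⧸ Ideal.span {G}
  let B := MvPolynomial (Fin N) k ⧸ Ideal.span {aeval (p1 m j) G}
  let g : Polynomial A := Polynomial.X ^ m - Polynomial.C (Ideal.Quotient.mk (Ideal.span {G}) (X j))
  let q : MvPolynomial (Fin N) k →ₐ[k] B := Ideal.Quotient.mkₐ k _
  have hq : q (aeval (p1 m j) G) = 0 :=
    Ideal.Quotient.eq_zero_iff_mem.2 (Ideal.mem_span_singleton_self _)
  let α : A →ₐ[k] B := Ideal.Quotient.liftₐ _ (q.comp (aeval (p1 m j))) fun x hx => by
    obtain ⟨y, rfl⟩ := Ideal.mem_span_singleton'.1 hx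
    rw [map_mul, AlgHom.comp_apply q _ G, hq, mul_zero]
  have hα : ∀ x, α (Ideal.Quotient.mk _ x) = q (aeval (p1 m j) x) := fun x => rfl
  have h1 : g.eval₂ (α : A →+* B) (q (X j)) = 0 := by
    rw [Polynomial.eval₂_sub, Polynomial.eval₂_pow, Polynomial.eval₂_X, Polynomial.eval₂_C]
    change q (X j) ^ m - α _ = 0
    rw [hα, aeval_X, p1, if_pos rfl, map_pow, sub_self]
  let α' : AdjoinRoot g →ₐ[k] B := AdjoinRoot.liftAlgHom _ α (q (X j)) h1
  let o : A →ₐ[k] AdjoinRoot g := AdjoinRoot.ofAlgHom k g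
  let qA : MvPolynomial (Fin N) k →ₐ[k] A := Ideal.Quotient.mkₐ k _
  have hqA : qA G = 0 := Ideal.Quotient.eq_zero_iff_mem.2 (Ideal.mem_span_singleton_self _)
  have hroot : AdjoinRoot.root g ^ m = o (qA (X j)) := by
    have h5 := AdjoinRoot.eval₂_root g
    rw [Polynomial.eval₂_sub, Polynomial.eval₂_pow, Polynomial.eval₂_X, Polynomial.eval₂_C,
      sub_eq_zero] at h5
    exact h5
  let v : Fin N → AdjoinRoot g := fun a => if a = j then AdjoinRoot.root g else o (qA (X a))
  have hv : (aeval v).comp (aeval (p1 m j)) = o.comp qA := by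
    refine algHom_ext fun a => ?_
    rw [AlgHom.comp_apply, aeval_X, p1]
    by_cases h : a = j
    · subst h
      rw [if_pos rfl, map_pow, aeval_X]
      change (if a = a then _ else _) ^ m = _
      rw [if_pos rfl, hroot]
      rfl
    · rw [if_neg h, aeval_X]
      change (if a = j then _ else _) = _
      rw [if_neg h]
      rfl
  let β : B →ₐ[k] AdjoinRoot g := Ideal.Quotient.liftₐ _ (aeval v) fun x hx => by
    obtain ⟨y, rfl⟩ := Ideal.mem_span_singleton'.1 hx
    rw [map_mul]
    have h6 : aeval v (aeval (p1 (k := k) m j) G) = 0 := by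
      have h7 := DFunLike.congr_fun hv G
      rw [AlgHom.comp_apply, AlgHom.comp_apply, hqA, map_zero] at h7
      exact h7
    rw [h6, mul_zero]
  have hβ : ∀ x, β (q x) = aeval v x := fun x => rfl
  refine AlgEquiv.ofAlgHom α' β ?_ ?_
  · refine Ideal.Quotient.algHom_ext k (algHom_ext fun a => ?_)
    change α' (β (q (X a))) = q (X a)
    rw [hβ, aeval_X]
    change α' (if a = j then _ else _) = _
    by_cases h : a = j
    · rw [if_pos h, h]
      exact AdjoinRoot.liftAlgHom_root _ _ _ _
    · rw [if_neg h]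
      change α' (AdjoinRoot.of _ _) = _
      rw [AdjoinRoot.liftAlgHom_of]
      change q (aeval (p1 (k := k) m j) (X a)) = _
      rw [aeval_X, p1, if_neg h]
  · refine AdjoinRoot.algHom_ext' ?_ ?_
    · refine Ideal.Quotient.algHom_ext k (algHom_ext fun a => ?_)
      change β (α' (AdjoinRoot.of _ (qA (X a)))) = AdjoinRoot.of _ (qA (X a))
      rw [AdjoinRoot.liftAlgHom_of]
      change β (q (aeval (p1 (k := k) m j) (X a))) = _
      rw [hβ]
      exact DFunLike.congr_fun hv (X a)
    · change β (α' (AdjoinRoot.root _)) = AdjoinRoot.root _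
      rw [AdjoinRoot.liftAlgHom_root, hβ, aeval_X]
      exact if_pos rfl

variable {T : ChowData k}

lemma cover_sub (hT : IsChow T) {m : ℕ} (hm : 0 < m) (j : Fin N) {G : MvPolynomial (Fin N) k}
    (hG : eval 0 G = 0) (r : ℤ)
    (h : Subsingleton (T.CH (MvPolynomial (Fin N) k ⧸ Ideal.span {aeval (p1 m j) G}) r 0)) :
    Subsingleton (T.CH (MvPolynomial (Fin N) k ⧸ Ideal.span {G}) r 0) := by
  have hn : Nontrivial (MvPolynomial (Fin N) k ⧸ Ideal.span {G}) := by
    rw [Ideal.Quotient.nontrivial_iff, Ne, Ideal.eq_top_iff_one, Ideal.mem_span_singleton]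
    rintro ⟨c, hc⟩
    have := congrArg (eval (0 : Fin N → k)) hc
    rw [map_one, map_mul, hG, zero_mul] at this
    exact one_ne_zero this
  obtain ⟨φ, hφ⟩ := hT.cover (MvPolynomial (Fin N) k ⧸ Ideal.span {G})
    (Polynomial.X ^ m - Polynomial.C (Ideal.Quotient.mk (Ideal.span {G}) (X j)))
    (Polynomial.monic_X_pow_sub_C _ hm.ne') (by rw [Polynomial.natDegree_X_pow_sub_C]; exact hm) r
  have h2 := hT.iso_sub (coverIso m j G) h
  exact hφ.subsingleton

lemma eval_zero_hom {F : MvPolynomial (Fin N) k} {d : ℕ} (hd : 0 < d) (hF : F.IsHomogeneous d) :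
    eval 0 F = 0 := by
  have h := eval_smul hF (0 : k) 0
  rwa [smul_zero, zero_pow hd.ne', zero_mul] at h

lemma cover_all (hT : IsChow T) {m d : ℕ} (hm : 0 < m) (hd : 0 < d) {F : MvPolynomial (Fin N) k}
    (hF : F.IsHomogeneous d) (r : ℤ)
    (h : Subsingleton (T.CH (MvPolynomial (Fin N) k ⧸ Ideal.span {powForm m F}) r 0)) :
    Subsingleton (T.CH (MvPolynomial (Fin N) k ⧸ Ideal.span {F}) r 0) := by
  have h0 : ∀ j, eval 0 (ppow m j F) = 0 := by
    intro j
    rw [ppow, eval_aeval]
    have : (fun a : Fin N => eval (0 : Fin N → k)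
        (if a.val < j then (X a : MvPolynomial (Fin N) k) ^ m else X a)) = 0 := by
      funext a
      split_ifs <;> simp [hm.ne']
    rw [this]
    exact eval_zero_hom hd hF
  have h1 : ∀ j, j ≤ N →
      Subsingleton (T.CH (MvPolynomial (Fin N) k ⧸ Ideal.span {ppow m (N - j) F}) r 0) := by
    intro j
    induction j with
    | zero =>
      intro _
      rw [Nat.sub_zero, ppow_last]
      exact h
    | succ j ih =>
      intro hj
      have h2 := ih (by omega)
      have h3 : N - j = (⟨N - (j + 1), by omega⟩ : Fin N).val + 1 := by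
        change N - j = N - (j + 1) + 1
        omega
      rw [h3, ppow_succ] at h2
      exact cover_sub hT hm _ (h0 _) r h2
  have h4 := h1 N le_rfl
  rwa [Nat.sub_self, ppow_zero] at h4

/-- `F` is a form of degree `d` whose restrictions to all coordinate subspaces are smooth. -/
def IsNondegenerate (F : MvPolynomial (Fin N) k) (d : ℕ) : Prop :=
  F.IsHomogeneous d ∧ ∀ z : Fin N → k, z ≠ 0 → ∃ a, z a ≠ 0 ∧ eval z (pderiv a F) ≠ 0

lemma powForm_smooth [CharZero k] {m d : ℕ} (hm : 0 < m) {F : MvPolynomial (Fin N) k}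
    (hF : IsNondegenerate F d) : IsSmoothForm (powForm m F) (m * d) := by
  refine ⟨hF.1.aeval _ fun a => isHomogeneous_X_pow a m, fun z hz => ?_⟩
  by_contra hz0
  set w : Fin N → k := fun a => z a ^ m with hw
  have hw0 : w ≠ 0 := by
    intro h
    apply hz0
    funext a
    exact pow_eq_zero_iff hm.ne' |>.1 (congrFun h a)
  obtain ⟨a, ha, ha'⟩ := hF.2 w hw0
  have h1 := hz a
  rw [powForm, pderiv_aeval, map_sum, Finset.sum_eq_single a] at h1
  · rw [map_mul, eval_aeval] at h1
    have h2 : (fun b => eval z ((X b : MvPolynomial (Fin N) k) ^ m)) = w := by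
      funext b
      simp [hw]
    rw [h2, Derivation.leibniz_pow, pderiv_X_self] at h1
    have h3 : z a ≠ 0 := by
      intro h
      apply ha
      rw [hw]
      simp [h, hm.ne']
    have hm' : (m : k) ≠ 0 := Nat.cast_ne_zero.2 hm.ne'
    rcases mul_eq_zero.1 h1 with h4 | h4
    · exact ha' h4
    · simp only [nsmul_eq_mul, smul_eq_mul, map_mul, map_pow, eval_X, mul_one, map_natCast] at h4
      exact mul_ne_zero hm' (pow_ne_zero _ h3) h4
  · intro b _ hb
    rw [Derivation.leibniz_pow, pderiv_X_of_ne hb]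
    simp
  · simp

/-- **The covering of a hypersurface of degree `d` by one of degree `d m`.** -/
theorem generated_of_power [IsAlgClosed k] [CharZero k] (hT : IsChow T) {n d i : ℕ} (hd : 2 ≤ d)
    {F : MvPolynomial (Fin (n + 2)) k} (hF : IsSmoothForm F d) (hi : 1 ≤ i) (hin : i ≤ n)
    (h : ∀ G : MvPolynomial (Fin (n + 2)) k, IsNondegenerate G d →
      ∃ m, 0 < m ∧ GeneratedByPower T (powForm m G) i) : GeneratedByPower T F i := by
  obtain ⟨j, rfl⟩ : ∃ j, i = j + 1 := ⟨i - 1, by omega⟩
  have hP : PJ F 0 := by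
    intro y hy
    by_contra h1
    push Not at h1
    exact hy (hF.2 y fun a => h1 a (fun h => absurd h (Nat.not_lt_zero _)))
  obtain ⟨φ, h1, h2⟩ := exists_coord hd hF.1 hP (n + 2) le_rfl
  have h3 : IsNondegenerate (φ F) d := by
    refine ⟨h1, fun z hz => ?_⟩
    obtain ⟨a, ha, ha'⟩ := h2 z hz
    exact ⟨a, ha a.2, ha'⟩
  obtain ⟨m, hm, h4⟩ := h (φ F) h3
  rw [hT.generated_iff (Nat.mul_pos hm (by omega)) (powForm_smooth hm h3) hin] at h4
  rw [hT.generated_iff (by omega) hF hin]
  have h5 := cover_all hT hm (by omega) h1 _ h4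
  refine hT.iso_sub (Ideal.quotientEquivAlg (Ideal.span {F}) (Ideal.span {φ F}) φ ?_) h5
  rw [Ideal.map_span, Set.image_singleton]
  rfl

end Pool.Agent.Helper17.LD
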