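import Pool.Agent.Helper17.LD.Cover

/-!
# The covering `f + a^D + b^D = 0` of `f = u t`
-/

set_option autoImplicit false

open Polynomial

namespace Pool.Agent.Helper17.LD

open Pool.Agent.Helper13HC

section cover

variable (k : Type) [Field k] {R : Type} [CommRing R] [Algebra k R] (f : R)

/-- The equation `f + u h(u, y)` in `R[u, y]`. -/
noncomputable def heq (h : R[X][X]) : R[X][X] := C (C f) + C X * h

/-- The ring `R[u, y] / (f + u h(u, y))`. -/
def HR (h : R[X][X]) : Type := R[X][X] ⧸ Ideal.span {heq f h}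

noncomputable instance (h : R[X][X]) : CommRing (HR f h) :=
  inferInstanceAs (CommRing (R[X][X] ⧸ Ideal.span {heq f h}))

noncomputable instance (h : R[X][X]) : Algebra k (HR f h) :=
  inferInstanceAs (Algebra k (R[X][X] ⧸ Ideal.span {heq f h}))

/-- The homomorphism `R[u] → R[u, t] / (f - u t)`. -/
noncomputable def ui : R[X] →ₐ[k] KR f := pev (kinc k f) (ku f)

/-- The polynomial `c (h(u, y) + t)` in `y`. -/
noncomputable def hpol (c : k) (h : R[X][X]) : (KR f)[X] :=
  (h.map (ui k f : R[X] →+* KR f) + C (kt f)) * C (algebraMap k (KR f) c)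

variable {k f}

/-- The ring `R[u, y] / (f + u h(u, y))` is obtained from `R[u, t] / (f - u t)` by adjoining a root
of `h(u, y) + t`. -/
noncomputable def hEquiv {c : k} (hc : c ≠ 0) (h : R[X][X]) :
    AdjoinRoot (hpol k f c h) ≃ₐ[k] HR f h := by
  let q : R[X][X] →ₐ[k] HR f h := Ideal.Quotient.mkₐ k (Ideal.span {heq f h})
  have hq : q (heq f h) = 0 :=
    Ideal.Quotient.eq_zero_iff_mem.2 (Ideal.mem_span_singleton_self _)
  let i : R →ₐ[k] R[X][X] := (CAlgHom : R[X] →ₐ[k] R[X][X]).comp (CAlgHom : R →ₐ[k] R[X])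
  have h1 : (q.comp i) f = q (C X) * q (-h) := by
    rw [← map_mul]
    have h2 : q (C (C f)) - q (C X * -h) = q (heq f h) := by
      rw [← map_sub, heq]
      congr 1
      ring
    rw [hq, sub_eq_zero] at h2
    exact h2
  let α : KR f →ₐ[k] HR f h := klift k (q.comp i) _ _ h1
  have hαu : α (ku f) = q (C X) := by
    change klift k _ _ _ h1 (kq f (C X)) = _
    rw [klift_q, pev_C, pev_X]
  have hαt : α (kt f) = q (-h) := by
    change klift k _ _ _ h1 (kq f X) = _
    rw [klift_q, pev_X]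
  have hαi : ∀ a, α (kinc k f a) = q (C (C a)) := by
    intro a
    rw [kinc_apply]
    change klift k _ _ _ h1 (kq f (C (C a))) = _
    rw [klift_q, pev_C, pev_C]
    rfl
  have hαui : α.comp (ui k f) = q.comp (CAlgHom : R[X] →ₐ[k] R[X][X]) := by
    refine pev_ext (fun a => ?_) ?_
    · rw [AlgHom.comp_apply, ui, pev_C, hαi]
      rfl
    · rw [AlgHom.comp_apply, ui, pev_X, hαu]
      rfl
  have hev : ∀ p : R[X][X], (p.map (ui k f : R[X] →+* KR f)).eval₂ (α : KR f →+* HR f h) (q X) =
      q p := by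
    intro p
    rw [eval₂_map]
    have h5 : ((α : KR f →+* HR f h).comp (ui k f : R[X] →+* KR f)) =
        (q.comp (CAlgHom : R[X] →ₐ[k] R[X][X]) : R[X] →+* HR f h) := by
      rw [← hαui]
      rfl
    rw [h5]
    induction p using Polynomial.induction_on' with
    | add p r hp hr => rw [eval₂_add, hp, hr, map_add]
    | monomial n a =>
      rw [eval₂_monomial, ← C_mul_X_pow_eq_monomial, map_mul, map_pow]
      rfl
  have h3 : (hpol k f c h).eval₂ (α : KR f →+* HR f h) (q X) = 0 := by
    rw [hpol, eval₂_mul, eval₂_add, hev, eval₂_C]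
    change (q h + α (kt f)) * _ = 0
    rw [hαt, map_neg, add_neg_cancel, zero_mul]
  let α' : AdjoinRoot (hpol k f c h) →ₐ[k] HR f h := AdjoinRoot.liftAlgHom _ α (q X) h3
  let o : KR f →ₐ[k] AdjoinRoot (hpol k f c h) := AdjoinRoot.ofAlgHom k (hpol k f c h)
  let ψ : R[X][X] →ₐ[k] AdjoinRoot (hpol k f c h) :=
    pev (pev (o.comp (kinc k f)) (o (ku f))) (AdjoinRoot.root (hpol k f c h))
  have hψ : ∀ p : R[X][X], (p.map (ui k f : R[X] →+* KR f)).eval₂
      (o : KR f →+* AdjoinRoot (hpol k f c h)) (AdjoinRoot.root (hpol k f c h)) = ψ p := by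
    intro p
    rw [eval₂_map]
    have h5 : ((o : KR f →+* _).comp (ui k f : R[X] →+* KR f)) =
        (pev (o.comp (kinc k f)) (o (ku f)) : R[X] →+* AdjoinRoot (hpol k f c h)) := by
      have h6 : o.comp (ui k f) = pev (o.comp (kinc k f)) (o (ku f)) := by
        refine pev_ext (fun a => ?_) ?_
        · rw [AlgHom.comp_apply, ui, pev_C, pev_C]
          rfl
        · rw [AlgHom.comp_apply, ui, pev_X, pev_X]
      rw [← h6]
      rfl
    rw [h5]
    induction p using Polynomial.induction_on' with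
    | add p r hp hr => rw [eval₂_add, hp, hr, map_add]
    | monomial n a =>
      rw [eval₂_monomial, ← C_mul_X_pow_eq_monomial, map_mul, map_pow]
      change _ = pev _ _ (C a) * pev _ _ X ^ n
      rw [pev_C, pev_X]
      rfl
  have hroot : ψ h + o (kt f) = 0 := by
    have h5 := AdjoinRoot.eval₂_root (hpol k f c h)
    rw [hpol, eval₂_mul, eval₂_add, eval₂_C, eval₂_C] at h5
    have h6 : (ψ h + o (kt f)) * o (algebraMap k (KR f) c) = 0 := by
      rw [← hψ]
      exact h5
    rw [AlgHom.commutes] at h6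
    have h7 : IsUnit (algebraMap k (AdjoinRoot (hpol k f c h)) c) :=
      (IsUnit.mk0 c hc).map _
    exact (h7.mul_left_eq_zero).1 h6
  let β : HR f h →ₐ[k] AdjoinRoot (hpol k f c h) :=
    Ideal.Quotient.liftₐ _ ψ fun x hx => by
      obtain ⟨y, rfl⟩ := Ideal.mem_span_singleton'.1 hx
      rw [map_mul]
      have h6 : ψ (heq f h) = 0 := by
        rw [heq, map_add, map_mul]
        change pev _ _ (C (C f)) + pev _ _ (C X) * ψ h = 0
        rw [pev_C, pev_C, pev_C, pev_X]
        change o (kq f (C (C f))) + o (ku f) * ψ h = 0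
        rw [k_rel, map_mul, eq_neg_of_add_eq_zero_left hroot]
        change o (ku f) * o (kt f) + o (ku f) * -o (kt f) = 0
        ring
      rw [h6, mul_zero]
  have hβ : ∀ p, β (q p) = ψ p := fun p => rfl
  refine AlgEquiv.ofAlgHom α' β ?_ ?_
  · refine Ideal.Quotient.algHom_ext k (pev_ext2 (k := k) (fun a => ?_) ?_ ?_)
    · change α' (pev (pev (o.comp (kinc k f)) (o (ku f))) (AdjoinRoot.root (hpol k f c h))
        (C (C a))) = q (C (C a))
      rw [pev_C, pev_C]
      change α' (AdjoinRoot.of _ (kinc k f a)) = _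
      rw [AdjoinRoot.liftAlgHom_of]
      exact hαi a
    · change α' (pev (pev (o.comp (kinc k f)) (o (ku f))) (AdjoinRoot.root (hpol k f c h))
        (C X)) = q (C X)
      rw [pev_C, pev_X]
      change α' (AdjoinRoot.of _ (ku f)) = _
      rw [AdjoinRoot.liftAlgHom_of]
      exact hαu
    · change α' (pev (pev (o.comp (kinc k f)) (o (ku f))) (AdjoinRoot.root (hpol k f c h)) X) = q X
      rw [pev_X, AdjoinRoot.liftAlgHom_root]
  · refine AdjoinRoot.algHom_ext' ?_ ?_
    · refine k_ext k (fun a => ?_) ?_ ?_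
      · change β (α' (AdjoinRoot.of _ (kinc k f a))) = AdjoinRoot.of _ (kq f (C (C a)))
        rw [AdjoinRoot.liftAlgHom_of]
        change β (α (kinc k f a)) = _
        rw [hαi, hβ]
        change pev (pev (o.comp (kinc k f)) (o (ku f))) (AdjoinRoot.root (hpol k f c h))
          (C (C a)) = _
        rw [pev_C, pev_C]
        rfl
      · change β (α' (AdjoinRoot.of _ (ku f))) = AdjoinRoot.of _ (ku f)
        rw [AdjoinRoot.liftAlgHom_of]
        change β (α (ku f)) = _
        rw [hαu, hβ]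
        change pev (pev (o.comp (kinc k f)) (o (ku f))) (AdjoinRoot.root (hpol k f c h)) (C X) = _
        rw [pev_C, pev_X]
        rfl
      · change β (α' (AdjoinRoot.of _ (kt f))) = AdjoinRoot.of _ (kt f)
        rw [AdjoinRoot.liftAlgHom_of]
        change β (α (kt f)) = _
        rw [hαt, hβ, map_neg, eq_neg_of_add_eq_zero_left hroot, neg_neg]
        rfl
    · change β (α' (AdjoinRoot.root _)) = AdjoinRoot.root _
      rw [AdjoinRoot.liftAlgHom_root, hβ]
      exact pev_X _ _

end cover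

section fermat

variable (k : Type) [Field k] {R : Type} [CommRing R] [Algebra k R]

/-- The element `ω y`. -/
noncomputable def wy (R : Type) [CommRing R] [Algebra k R] (ω : k) : R[X][X] :=
  C (C (algebraMap k R ω)) * X

/-- The polynomial `((u + ω y)^D - (ω y)^D) / u`. -/
noncomputable def hf (R : Type) [CommRing R] [Algebra k R] (ω : k) (D : ℕ) : R[X][X] :=
  ∑ i ∈ Finset.range D, (C X + wy k R ω) ^ i * wy k R ω ^ (D - 1 - i)

lemma heq_hf (f : R) {ω : k} {D : ℕ} (hω : ω ^ D = -1) :
    heq f (hf k R ω D) = C (C f) + X ^ D + (C X + wy k R ω) ^ D := by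
  have h1 := (Commute.all (C X + wy k R ω) (wy k R ω)).geom_sum₂_mul D
  rw [add_sub_cancel_right] at h1
  rw [heq, mul_comm, hf, h1]
  have h2 : wy k R ω ^ D = - X ^ D := by
    rw [wy, mul_pow, ← C_pow, ← C_pow, ← map_pow, hω, map_neg, map_one, C_neg, C_neg, C_1, C_1]
    ring
  rw [h2]
  ring

variable {k}

lemma hpol_spec (f : R) [Nontrivial (KR f)] {ω : k} {D : ℕ} (hD : 2 ≤ D) (hω : ω ≠ 0)
    (hD0 : (D : k) ≠ 0) :
    (hpol k f ((D * ω ^ (D - 1))⁻¹) (hf k R ω D)).Monic ∧
      (hpol k f ((D * ω ^ (D - 1))⁻¹) (hf k R ω D)).natDegree = D - 1 := by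
  set c : k := (D * ω ^ (D - 1))⁻¹ with hc
  set w : KR f := algebraMap k (KR f) ω with hw
  set v : KR f := algebraMap k (KR f) ω⁻¹ * ku f with hv
  have hwv : w * v = ku f := by
    rw [hw, hv, ← mul_assoc, ← map_mul, mul_inv_cancel₀ hω, map_one, one_mul]
  set P : (KR f)[X] := ∑ i ∈ Finset.range D, (X + C v) ^ i * X ^ (D - 1 - i) with hP
  have h1 : (hf k R ω D).map (ui k f : R[X] →+* KR f) = P * C (w ^ (D - 1)) := by
    have e1 : (wy k R ω).map (ui k f : R[X] →+* KR f) = C w * X := by
      rw [wy, Polynomial.map_mul, Polynomial.map_C, Polynomial.map_X]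
      congr 2
      change ui k f (C (algebraMap k R ω)) = _
      rw [ui, pev_C, AlgHom.commutes]
    have e2 : (C X : R[X][X]).map (ui k f : R[X] →+* KR f) = C (w * v) := by
      rw [Polynomial.map_C, hwv]
      congr 1
      exact pev_X _ _
    rw [hf, Polynomial.map_sum, hP, Finset.sum_mul]
    refine Finset.sum_congr rfl fun i hi => ?_
    have hi' := Finset.mem_range.1 hi
    rw [Polynomial.map_mul, Polynomial.map_pow, Polynomial.map_pow, Polynomial.map_add, e1, e2,
      C_mul, ← mul_add, add_comm (C v) X, mul_pow, mul_pow, C_pow]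
    have e3 : (C w : (KR f)[X]) ^ (D - 1) = C w ^ i * C w ^ (D - 1 - i) := by
      rw [← pow_add]
      congr 1
      omega
    rw [e3]
    ring
  have hmon : ∀ i ∈ Finset.range D, ((X + C v) ^ i * X ^ (D - 1 - i) : (KR f)[X]).Monic ∧
      ((X + C v) ^ i * X ^ (D - 1 - i) : (KR f)[X]).natDegree = D - 1 := by
    intro i hi
    have hi' := Finset.mem_range.1 hi
    refine ⟨((monic_X_add_C v).pow i).mul (monic_X_pow _), ?_⟩
    rw [((monic_X_add_C v).pow i).natDegree_mul (monic_X_pow _),
      (monic_X_add_C v).natDegree_pow, natDegree_X_add_C, natDegree_X_pow]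
    omega
  have hPc : P.coeff (D - 1) = D := by
    have e4 : ∀ i ∈ Finset.range D, ((X + C v) ^ i * X ^ (D - 1 - i) : (KR f)[X]).coeff (D - 1) =
        1 := by
      intro i hi
      have := (hmon i hi).1
      rw [Monic, leadingCoeff, (hmon i hi).2] at this
      exact this
    rw [hP, finsetSum_coeff, Finset.sum_congr rfl e4]
    simp
  have hPd : P.natDegree ≤ D - 1 := by
    rw [hP]
    exact natDegree_sum_le_of_forall_le _ _ fun i hi => (hmon i hi).2.le
  have h2 : hpol k f c (hf k R ω D) = (P * C (w ^ (D - 1)) + C (kt f)) *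
      C (algebraMap k (KR f) c) := by
    rw [hpol, h1]
  have h3 : (hpol k f c (hf k R ω D)).coeff (D - 1) = 1 := by
    rw [h2, coeff_mul_C, coeff_add, coeff_mul_C, hPc, coeff_C, if_neg (by omega), add_zero, hw,
      ← map_natCast (algebraMap k (KR f)), ← map_pow, ← map_mul, ← map_mul, hc,
      mul_inv_cancel₀ (mul_ne_zero hD0 (pow_ne_zero _ hω)), map_one]
  have h4 : (hpol k f c (hf k R ω D)).natDegree ≤ D - 1 := by
    rw [h2]
    refine (natDegree_mul_C_le _ _).trans ((natDegree_add_le _ _).trans (max_le ?_ ?_))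
    · exact (natDegree_mul_C_le _ _).trans hPd
    · rw [natDegree_C]
      exact Nat.zero_le _
  refine ⟨monic_of_natDegree_le_of_coeff_eq_one _ h4 h3, ?_⟩
  exact natDegree_eq_of_le_of_coeff_ne_zero h4 (by rw [h3]; exact one_ne_zero)

variable {T : ChowData k}

/-- The main step. -/
theorem key_fermat [CharZero k] (hT : IsChow T) {N : ℕ} (f : MvPolynomial (Fin N) k) {D : ℕ}
    (hD : 2 ≤ D) {ω : k} (hω : ω ≠ 0) (r : ℤ) (hr : r ≠ N)
    (h : Subsingleton (T.CH (HR f (hf k (MvPolynomial (Fin N) k) ω D)) r 0)) :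
    Subsingleton (T.CH (MvPolynomial (Fin N) k ⧸ Ideal.span {f}) (r - 1) 0) := by
  have hfin : Algebra.FiniteType k (KR f) :=
    inferInstanceAs (Algebra.FiniteType k (_ ⧸ Ideal.span {keq f}))
  have hD0 : (D : k) ≠ 0 := Nat.cast_ne_zero.2 (by omega)
  -- the covering
  have hn : Nontrivial (KR f) :=
    (klift k (AlgHom.id k _) 1 f (one_mul f).symm : KR f →ₐ[k] _).toRingHom.domain_nontrivial
  have h1 : Subsingleton (T.CH (KR f) r 0) := by
    obtain ⟨hm, hdeg⟩ := hpol_spec (k := k) f hD hω hD0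
    obtain ⟨φ, hφ⟩ := hT.cover (KR f) _ hm (by rw [hdeg]; omega) r
    have h2 := hT.iso_sub (hEquiv (k := k) (f := f)
      (inv_ne_zero (mul_ne_zero hD0 (pow_ne_zero (D - 1) hω))) _) h
    exact hφ.subsingleton
  -- the localisation sequence
  have h3 : Subsingleton (T.CH (Localization.Away (ku f)) r 1) :=
    hT.iso_sub (locEquiv k f) (hT.torus N r hr)
  obtain ⟨α, β, γ, δ, -, h4, -, -⟩ := hT.localization (KR f) (ku f) r
  have h5 : Subsingleton (T.CH (KR f ⧸ Ideal.span {ku f}) r 0) := by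
    refine subsingleton_of_forall_eq 0 fun x => ?_
    obtain ⟨y, rfl⟩ := (h4 x).1 (Subsingleton.elim _ _)
    rw [Subsingleton.elim y 0, map_zero]
  have h6 : Subsingleton (T.CH (MvPolynomial (Fin N) k ⧸ Ideal.span {f})[X] r 0) :=
    hT.iso_sub (closedEquiv k f).symm h5
  exact hT.of_poly_sub h6

/-- The form `F(x) + a^D + b^D` in two more variables. -/
noncomputable def add2 {N : ℕ} (F : MvPolynomial (Fin N) k) (D : ℕ) :
    MvPolynomial (Fin (N + 2)) k :=
  MvPolynomial.rename (fun j => j.succ.succ) F + MvPolynomial.X 0 ^ D + MvPolynomial.X 1 ^ D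

lemma add2_smooth [CharZero k] {N : ℕ} {F : MvPolynomial (Fin N) k} {D : ℕ} (hD : 2 ≤ D)
    (h : IsSmoothForm F D) : IsSmoothForm (add2 F D) D := by
  have hD0 : (D : k) ≠ 0 := Nat.cast_ne_zero.2 (by omega)
  refine ⟨(h.1.rename_isHomogeneous.add (MvPolynomial.isHomogeneous_X_pow _ _)).add
    (MvPolynomial.isHomogeneous_X_pow _ _), fun z hz => ?_⟩
  have h1 : (fun j : Fin N => z j.succ.succ) = 0 := by
    refine h.2 _ fun j => ?_
    have h2 := hz j.succ.succ
    have h0 : (0 : Fin (N + 2)) ≠ j.succ.succ := (Fin.succ_ne_zero _).symm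
    have h1 : (1 : Fin (N + 2)) ≠ j.succ.succ := by
      intro h
      rw [← Fin.succ_zero_eq_one, Fin.succ_inj] at h
      exact (Fin.succ_ne_zero _) h.symm
    simp only [add2, map_add] at h2
    rw [MvPolynomial.pderiv_rename succ_succ_inj,
      Derivation.leibniz_pow, Derivation.leibniz_pow, MvPolynomial.pderiv_X_of_ne h0,
      MvPolynomial.pderiv_X_of_ne h1] at h2
    simp only [smul_zero, map_zero, add_zero, MvPolynomial.eval_rename] at h2
    exact h2
  have h2 : z 0 = 0 := by
    have h3 := hz 0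
    simp only [add2, map_add] at h3
    rw [pderiv_rename_zero F (fun j => Fin.succ_ne_zero _),
      Derivation.leibniz_pow, Derivation.leibniz_pow, MvPolynomial.pderiv_X_self,
      MvPolynomial.pderiv_X_of_ne (Fin.zero_ne_one).symm] at h3
    simp only [zero_add, smul_zero, mul_zero, map_zero, add_zero, nsmul_eq_mul, smul_eq_mul,
      mul_one, map_mul, map_pow, MvPolynomial.eval_X, map_natCast] at h3
    by_contra h4
    exact mul_ne_zero hD0 (pow_ne_zero _ h4) h3
  have h3 : z 1 = 0 := by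
    have h3 := hz 1
    have h4 : ∀ j : Fin N, j.succ.succ ≠ 1 := fun j h => by
      rw [← Fin.succ_zero_eq_one, Fin.succ_inj] at h
      exact (Fin.succ_ne_zero _) h
    simp only [add2, map_add] at h3
    rw [pderiv_rename_zero F h4,
      Derivation.leibniz_pow, Derivation.leibniz_pow, MvPolynomial.pderiv_X_self,
      MvPolynomial.pderiv_X_of_ne (Fin.zero_ne_one)] at h3
    simp only [zero_add, smul_zero, mul_zero, map_zero, add_zero, nsmul_eq_mul, smul_eq_mul,
      mul_one, map_mul, map_pow, MvPolynomial.eval_X, map_natCast] at h3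
    by_contra h4
    exact mul_ne_zero hD0 (pow_ne_zero _ h4) h3
  funext j
  refine Fin.cases h2 (fun j => ?_) j
  refine Fin.cases ?_ (fun j => ?_) j
  · exact h3
  · exact congrFun h1 j

/-- The substitution `u ↦ u + ω y`. -/
noncomputable def mix (R : Type) [CommRing R] [Algebra k R] (ω : k) : R[X][X] ≃ₐ[k] R[X][X] := by
  let ι : R →ₐ[k] R[X][X] := (CAlgHom : R[X] →ₐ[k] R[X][X]).comp (CAlgHom : R →ₐ[k] R[X])
  refine AlgEquiv.ofAlgHom (pev (pev ι (C X + wy k R ω)) X) (pev (pev ι (C X - wy k R ω)) X) ?_ ?_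
  · refine pev_ext2 (fun a => ?_) ?_ ?_
    · rw [AlgHom.comp_apply, pev_C, pev_C]
      change pev _ _ (C (C a)) = _
      rw [pev_C, pev_C]
      rfl
    · rw [AlgHom.comp_apply, pev_C, pev_X, map_sub, pev_C, pev_X, wy, map_mul, pev_X, pev_C,
        pev_C]
      change _ + C (C _) * X - C (C _) * X = _
      rw [add_sub_cancel_right]
      rfl
    · rw [AlgHom.comp_apply, pev_X, pev_X]
      rfl
  · refine pev_ext2 (fun a => ?_) ?_ ?_
    · rw [AlgHom.comp_apply, pev_C, pev_C]
      change pev _ _ (C (C a)) = _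
      rw [pev_C, pev_C]
      rfl
    · rw [AlgHom.comp_apply, pev_C, pev_X, map_add, pev_C, pev_X, wy, map_mul, pev_X, pev_C,
        pev_C]
      change _ - C (C _) * X + C (C _) * X = _
      rw [sub_add_cancel]
      rfl
    · rw [AlgHom.comp_apply, pev_X, pev_X]
      rfl

lemma mix_C (R : Type) [CommRing R] [Algebra k R] (ω : k) (a : R) :
    mix R ω (C (C a)) = C (C a) := by
  change pev (pev _ _) _ (C (C a)) = _
  rw [pev_C, pev_C]
  rfl

lemma mix_u (R : Type) [CommRing R] [Algebra k R] (ω : k) :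
    mix R ω (C X) = C X + wy k R ω := by
  change pev (pev _ _) _ (C X) = _
  rw [pev_C, pev_X]

lemma mix_X (R : Type) [CommRing R] [Algebra k R] (ω : k) : mix R ω X = X := by
  change pev (pev _ _) _ X = _
  rw [pev_X]

/-- The coordinate ring of the cone. -/
noncomputable def add2Equiv {N : ℕ} (F : MvPolynomial (Fin N) k) {D : ℕ} {ω : k}
    (hω : ω ^ D = -1) : (MvPolynomial (Fin (N + 2)) k ⧸ Ideal.span {add2 F D}) ≃ₐ[k]
      HR F (hf k (MvPolynomial (Fin N) k) ω D) := by
  let φ : MvPolynomial (Fin (N + 2)) k ≃ₐ[k] (MvPolynomial (Fin N) k)[X][X] :=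
    (MvPolynomial.finSuccEquiv k (N + 1)).trans
      (Polynomial.mapAlgEquiv (MvPolynomial.finSuccEquiv k N))
  have h0 : φ (MvPolynomial.X 0) = X := by
    change Polynomial.map _ (MvPolynomial.finSuccEquiv k (N + 1) (MvPolynomial.X 0)) = _
    rw [MvPolynomial.finSuccEquiv_X_zero, Polynomial.map_X]
  have h1 : φ (MvPolynomial.X 1) = C X := by
    change Polynomial.map _ (MvPolynomial.finSuccEquiv k (N + 1) (MvPolynomial.X 1)) = _
    rw [← Fin.succ_zero_eq_one, MvPolynomial.finSuccEquiv_X_succ, Polynomial.map_C]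
    change C (MvPolynomial.finSuccEquiv k N (MvPolynomial.X 0)) = _
    rw [MvPolynomial.finSuccEquiv_X_zero]
  have h2 : ∀ G : MvPolynomial (Fin N) k,
      φ (MvPolynomial.rename (fun j => j.succ.succ) G) = C (C G) := by
    intro G
    have h3 : (φ.toAlgHom.comp (MvPolynomial.rename (fun j : Fin N => j.succ.succ))) =
        ((CAlgHom : (MvPolynomial (Fin N) k)[X] →ₐ[k] _).comp
          (CAlgHom : MvPolynomial (Fin N) k →ₐ[k] _)) := by
      refine MvPolynomial.algHom_ext fun j => ?_
      change φ (MvPolynomial.rename _ (MvPolynomial.X j)) = C (C (MvPolynomial.X j))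
      rw [MvPolynomial.rename_X]
      change Polynomial.map _ (MvPolynomial.finSuccEquiv k (N + 1) (MvPolynomial.X _)) = _
      rw [MvPolynomial.finSuccEquiv_X_succ, Polynomial.map_C]
      change C (MvPolynomial.finSuccEquiv k N (MvPolynomial.X _)) = _
      rw [MvPolynomial.finSuccEquiv_X_succ]
    exact DFunLike.congr_fun h3 G
  have h4 : (φ.trans (mix (MvPolynomial (Fin N) k) ω)) (add2 F D) =
      heq F (hf k (MvPolynomial (Fin N) k) ω D) := by
    rw [heq_hf k F hω, AlgEquiv.trans_apply, add2]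
    simp only [map_add, map_pow]
    rw [h0, h1, h2, mix_C, mix_u, mix_X]
  refine Ideal.quotientEquivAlg _ _ (φ.trans (mix (MvPolynomial (Fin N) k) ω)) ?_
  rw [Ideal.map_span, Set.image_singleton]
  change _ = Ideal.span {(φ.trans (mix (MvPolynomial (Fin N) k) ω)) (add2 F D)}
  rw [h4]

/-- The step: the dimension `n + 2` and the codimension `i + 1`. -/
theorem fermat_step [IsAlgClosed k] [CharZero k] (hT : IsChow T) {n D : ℕ}
    {F : MvPolynomial (Fin (n + 2)) k} (hD : 2 ≤ D) (hF : IsSmoothForm F D) {i : ℕ} (h1 : 1 ≤ i)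
    (h2 : i ≤ n) (h : GeneratedByPower T (n := n + 2) (add2 F D) (i + 1)) :
    GeneratedByPower T F i := by
  obtain ⟨j, rfl⟩ : ∃ j, i = j + 1 := ⟨i - 1, by omega⟩
  obtain ⟨ω, hω⟩ := IsAlgClosed.exists_pow_nat_eq (-1 : k) (n := D) (by omega)
  have hω0 : ω ≠ 0 := by
    rintro rfl
    rw [zero_pow (by omega)] at hω
    exact one_ne_zero (α := k) (by rw [← neg_eq_zero, ← hω])
  rw [hT.generated_iff (n := n + 2) (by omega) (add2_smooth hD hF) (by omega)] at h
  rw [hT.generated_iff (by omega) hF h2]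
  have e1 : ((n + 2 : ℕ) : ℤ) - (j + 1 : ℕ) = (n : ℤ) - j + 1 := by
    push_cast
    ring
  rw [e1] at h
  have h3 : Subsingleton (T.CH (HR F (hf k (MvPolynomial (Fin (n + 2)) k) ω D))
      ((n : ℤ) - j + 1) 0) := hT.iso_sub (add2Equiv F hω).symm h
  have h4 := key_fermat hT F hD hω0 ((n : ℤ) - j + 1) (by push_cast; omega) h3
  rwa [add_sub_cancel_right] at h4

end fermat

end Pool.Agent.Helper17.LD
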