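import Pool.Agent.Helper17.LD.Fermat

/-!
# Joins with Fermat hypersurfaces
-/

set_option autoImplicit false

namespace Pool.Agent.Helper17.LD

open MvPolynomial Pool.Agent.Helper13HC

variable {k : Type} [Field k] {T : ChowData k}

/-- The form `G(z) + a_1^D + ⋯ + a_{2r}^D` in `2 r` more variables. -/
noncomputable def joinFermat {n : ℕ} (G : MvPolynomial (Fin (n + 2)) k) (D : ℕ) :
    ∀ r : ℕ, MvPolynomial (Fin (n + 2 * r + 2)) k
  | 0 => G
  | r + 1 => add2 (joinFermat G D r) D

lemma join_smooth [CharZero k] {n D : ℕ} (hD : 2 ≤ D) {G : MvPolynomial (Fin (n + 2)) k}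
    (hG : IsSmoothForm G D) (r : ℕ) : IsSmoothForm (joinFermat G D r) D := by
  induction r with
  | zero => exact hG
  | succ r ih => exact add2_smooth hD ih

lemma join_step [IsAlgClosed k] [CharZero k] (hT : IsChow T) {n D : ℕ} (hD : 2 ≤ D)
    {G : MvPolynomial (Fin (n + 2)) k} (hG : IsSmoothForm G D) {i : ℕ} (h1 : 1 ≤ i)
    (h2 : i ≤ n) (r : ℕ)
    (h : GeneratedByPower T (n := n + 2 * r) (joinFermat G D r) (i + r)) :
    GeneratedByPower T G i := by
  induction r with
  | zero => exact h
  | succ r ih =>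
    refine ih (fermat_step (n := n + 2 * r) hT hD (join_smooth hD hG r) (by omega) (by omega) ?_)
    exact h

end Pool.Agent.Helper17.LD
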